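import Pool.Agent.N734.MZ.Even

/-!
# Few tuples with relations that fail for a family; the graded family (helper734)
-/

set_option autoImplicit false

namespace Pool.Agent.N734.MZ

open Finset Pool.Agent.Y760.ZF
open Pool.Agent.Y760.ZG (mz hr)
open Pool.Agent.X90.DB (Ad ex ex_nil ex_ne ad_ne ix)
open Pool.Agent.X90.DC

/-- all polynomial relations between multiple zeta values of indices in `S` hold for `Z` -/
def Tr {A : Type} [CommRing A] [Algebra ℚ A] (S : Set (List ℕ)) (Z : List ℕ → A) : Prop :=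
  ∀ f : MvPolynomial {u : List ℕ // Ad u ∧ u ∈ S} ℚ,
    MvPolynomial.aeval (fun u => mz u.1) f = 0 → MvPolynomial.aeval (fun u => Z u.1) f = 0

theorem rel_of {A : Type} [CommRing A] [Algebra ℚ A] (S : Set (List ℕ)) (Z : List ℕ → A)
    (h : Tr S Z) (x : Fin 0 → ℂ) (y : Fin 0 → A) : Rel2 S x y Z := by
  intro Q hQ
  let ρ : Fin 0 ⊕ {u : List ℕ // Ad u ∧ u ∈ S} → {u : List ℕ // Ad u ∧ u ∈ S} :=
    Sum.elim (fun i => i.elim0) fun p => p
  have h1 : ∀ (B : Type) [CommRing B] [Algebra ℚ B] (x : Fin 0 → B) (Z : List ℕ → B),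
      MvPolynomial.aeval (fun u : {u : List ℕ // Ad u ∧ u ∈ S} => Z u.1)
        (MvPolynomial.map (algebraMap ℤ ℚ) (MvPolynomial.rename ρ Q)) =
      MvPolynomial.aeval (Sum.elim x fun p => Z p.1) Q := by
    intro B _ _ x Z
    rw [MvPolynomial.aeval_map_algebraMap, MvPolynomial.aeval_rename]
    congr 2
    funext i
    rcases i with i | i
    · exact i.elim0
    · rfl
  have h2 := h (MvPolynomial.map (algebraMap ℤ ℚ) (MvPolynomial.rename ρ Q)) (by
    rw [h1 ℝ (fun i => i.elim0) mz]
    have h3 : ((MvPolynomial.aeval (Sum.elim (fun i : Fin 0 => (i.elim0 : ℝ)) fun p :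
        {u : List ℕ // Ad u ∧ u ∈ S} => mz p.1) Q : ℝ) : ℂ) = 0 := by
      rw [← hQ]
      have h4 : ∀ v : Fin 0 ⊕ {u : List ℕ // Ad u ∧ u ∈ S} → ℝ,
          ((MvPolynomial.aeval v Q : ℝ) : ℂ) = MvPolynomial.aeval (fun i => ((v i : ℝ) : ℂ)) Q := by
        intro v
        have h5 := MvPolynomial.aeval_algebraMap_apply (A := ℝ) ℂ v Q
        exact h5.symm
      rw [h4]
      congr 2
      funext i
      rcases i with i | i
      · exact i.elim0
      · rfl
    exact_mod_cast h3)
  rw [h1 A y Z] at h2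
  exact h2

/-- **few tuples** -/
theorem few_lib {k r : ℕ} (w : Fin r → List (Lr k)) (hw : ∀ i, Ge (w i)) (hne : ∀ i, w i ≠ [])
    (S : Set (List ℕ)) (hS : ∀ i q, q <+: fpx (w i) → q ≠ [] → q ∈ S) (D κ : ℕ) :
    ∃ K : ℕ, ∀ C : ℝ, ∃ N₀ : ℕ, ∀ N : ℕ, N₀ ≤ N → ∀ B : Finset (Fin k → ℕ),
      (∀ s ∈ B, (∀ j, N ≤ s j ∧ s j ≤ κ * N) ∧
        ∃ P : MvPolynomial (Fin r) ℤ, P.totalDegree ≤ D ∧ (∀ m, |((P.coeff m : ℤ) : ℝ)| ≤ C ^ N) ∧
          MvPolynomial.aeval (fun i => mz (ix s (w i))) P = 0 ∧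
          ∃ (A : Type) (_ : CommRing A) (_ : Algebra ℚ A) (Z : List ℕ → A), St Z ∧ Tr S Z ∧
            MvPolynomial.aeval (fun i => Z (ix s (w i))) P ≠ 0) → B.card ≤ K * N ^ (k - 1) := by
  classical
  obtain ⟨K, hK⟩ := gen2 0 k r D w hw S hS κ
  refine ⟨K, fun C => ?_⟩
  obtain ⟨N₀, hN₀⟩ := hK C (fun i => i.elim0)
  refine ⟨N₀, fun N hN B hB => hN₀ N hN B fun s hs => ?_⟩
  obtain ⟨h1, P, h2, h3, h4, A, i1, i2, Z, hZ, hF, h5⟩ := hB s hs
  let τ : Fin r → Fin 0 ⊕ Fin r := Sum.inr
  have h6 : ∀ (B : Type) [CommRing B] (x : Fin 0 → B) (v : Fin r → B),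
      MvPolynomial.aeval (Sum.elim x v) (MvPolynomial.rename τ P) = MvPolynomial.aeval v P := by
    intro B _ x v
    rw [MvPolynomial.aeval_rename]
    rfl
  refine ⟨h1, MvPolynomial.rename τ P, (MvPolynomial.totalDegree_rename_le _ _).trans h2, fun m => ?_, ?_,
    fun h => h5 ?_⟩
  · by_cases hm : ∃ u, Finsupp.mapDomain τ u = m
    · obtain ⟨u, rfl⟩ := hm
      rw [MvPolynomial.coeff_rename_mapDomain _ Sum.inr_injective]
      exact h3 u
    · rw [MvPolynomial.coeff_rename_eq_zero _ _ _ (fun u hu => absurd ⟨u, hu⟩ hm), Int.cast_zero, abs_zero]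
      exact (abs_nonneg _).trans (h3 0)
  · rw [h6]
    have h7 := MvPolynomial.aeval_algebraMap_apply (A := ℝ) ℂ (fun i => mz (ix s (w i))) P
    rw [h4, map_zero] at h7
    rw [← h7]
    rfl
  · have h8 := h A (fun i => i.elim0) Z (rel_of S Z hF _ _) hZ
    rw [h6] at h8
    have h9 : ∀ i, ex Z (ix s (w i)) = Z (ix s (w i)) :=
      fun i => ex_ne Z (fun h0 => hne i (List.map_eq_nil_iff.1 h0))
    simp only [h9] at h8
    exact h8

lemma sti_sum (u v : List ℕ) : ∀ m ∈ sti u v, m.sum = u.sum + v.sum := by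
  induction u, v using sti.induct with
  | case1 v =>
    intro m hm
    rw [sti, List.mem_singleton] at hm
    rw [hm, List.sum_nil, zero_add]
  | case2 i u =>
    intro m hm
    rw [sti, List.mem_singleton] at hm
    rw [hm, List.sum_nil, add_zero]
  | case3 i u j v ih1 ih2 ih3 =>
    intro m hm
    rw [sti, List.mem_append, List.mem_append, List.mem_map, List.mem_map, List.mem_map] at hm
    rcases hm with (⟨x, hx, rfl⟩ | ⟨x, hx, rfl⟩) | ⟨x, hx, rfl⟩
    · have := ih1 x hx
      simp only [List.sum_cons] at this ⊢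
      omega
    · have := ih2 x hx
      simp only [List.sum_cons] at this ⊢
      omega
    · have := ih3 x hx
      simp only [List.sum_cons] at this ⊢
      omega

/-- the graded family -/
noncomputable def Zg (u : List ℕ) : Polynomial ℝ := Polynomial.C (mz u) * Polynomial.X ^ u.sum

lemma st_Zg : St Zg := by
  intro u v hu hv
  have h1 : Zg u * Zg v = Polynomial.C (mz u * mz v) * Polynomial.X ^ (u.sum + v.sum) := by
    rw [Zg, Zg, Polynomial.C_mul, pow_add]
    ring
  rw [h1, mz_stuffle u v hu hv]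
  have h2 : ∀ L : List (List ℕ), (∀ m ∈ L, m.sum = u.sum + v.sum) →
      Polynomial.C (L.map mz).sum * Polynomial.X ^ (u.sum + v.sum) = (L.map Zg).sum := by
    intro L
    induction L with
    | nil => intro _; simp
    | cons a L ih =>
      intro h
      rw [List.map_cons, List.sum_cons, List.map_cons, List.sum_cons, Polynomial.C_add, add_mul,
        ih fun m hm => h m (List.mem_cons_of_mem _ hm), Zg, h a List.mem_cons_self]
  exact h2 _ (sti_sum u v)

/-- the coefficients of the value at the graded family -/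
theorem coeff_graded {σ R : Type} [CommRing R] [Algebra R ℝ] (e : σ → ℕ) (a : σ → ℝ)
    (P : MvPolynomial σ R) (p : ℕ) :
    (MvPolynomial.aeval (fun i => Polynomial.C (a i) * Polynomial.X ^ (e i)) P : Polynomial ℝ).coeff p =
      MvPolynomial.aeval a (MvPolynomial.weightedHomogeneousComponent e p P) := by
  induction P using MvPolynomial.induction_on' with
  | monomial m c =>
    have h1 : (MvPolynomial.aeval (fun i => Polynomial.C (a i) * Polynomial.X ^ (e i))
        (MvPolynomial.monomial m c) : Polynomial ℝ) =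
        Polynomial.C (MvPolynomial.aeval a (MvPolynomial.monomial m c)) *
          Polynomial.X ^ (Finsupp.weight e m) := by
      rw [MvPolynomial.aeval_monomial, MvPolynomial.aeval_monomial, Finsupp.weight_apply, Finsupp.prod,
        Finsupp.prod, Finsupp.sum]
      have h2 : ∀ i ∈ m.support, (Polynomial.C (a i) * Polynomial.X ^ (e i)) ^ m i =
          Polynomial.C (a i ^ m i) * Polynomial.X ^ (m i • e i) := by
        intro i _
        rw [mul_pow, ← Polynomial.C_pow, ← pow_mul, smul_eq_mul, mul_comm (e i)]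
      rw [Finset.prod_congr rfl h2, Finset.prod_mul_distrib, Finset.prod_pow_eq_pow_sum, map_mul, map_prod,
        mul_assoc]
      rfl
    rw [h1, Polynomial.coeff_C_mul_X_pow]
    have hm : MvPolynomial.IsWeightedHomogeneous e (MvPolynomial.monomial m c) (Finsupp.weight e m) :=
      MvPolynomial.isWeightedHomogeneous_monomial e m c rfl
    by_cases h : p = Finsupp.weight e m
    · rw [if_pos h, h, hm.weightedHomogeneousComponent_same]
    · rw [if_neg h, hm.weightedHomogeneousComponent_ne _ h, map_zero]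
  | add P Q hP hQ => rw [map_add, Polynomial.coeff_add, hP, hQ, map_add, map_add]

end Pool.Agent.N734.MZ
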