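import Pool.Agent.X90.DC.Gen2
import Pool.Agent.H340R2.LW

/-!
# Families with the stuffle product: linearisation, insertion of a large argument, even fronts (helper734)
-/

set_option autoImplicit false

namespace Pool.Agent.N734.MZ

open Finset Pool.Agent.Y760.ZF
open Pool.Agent.Y760.ZG (mz)
open Pool.Agent.X90.DB (Ad ex ex_nil ex_ne ad_ne ad_sti ix)
open Pool.Agent.X90.DC

/-- the stuffle product -/
def St {A : Type} [CommRing A] (Z : List ℕ → A) : Prop :=
  ∀ u v, Ad u → Ad v → Z u * Z v = ((sti u v).map Z).sum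

lemma sum_flat {α β A : Type} [AddCommMonoid A] (L : List α) (g : α → List β) (F : β → A) :
    ((L.flatMap g).map F).sum = (L.map fun a => ((g a).map F).sum).sum := by
  induction L with
  | nil => rfl
  | cons a L ih => rw [List.flatMap_cons, List.map_append, List.sum_append, ih, List.map_cons, List.sum_cons]

/-- a polynomial in the members of a family is a linear combination of the members -/
theorem lin {σ : Type} (g : σ → List ℕ) (hg : ∀ i, Ad (g i)) (f : MvPolynomial σ ℚ) :
    ∃ d : ℕ, 0 < d ∧ ∃ c0 : ℤ, ∃ L : List (ℤ × List ℕ), (∀ e ∈ L, Ad e.2) ∧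
      ∀ (A : Type) [CommRing A] [Algebra ℚ A] (Z : List ℕ → A), St Z →
        (d : A) * MvPolynomial.aeval (fun i => Z (g i)) f =
          (c0 : A) + (L.map fun e => (e.1 : A) * Z e.2).sum := by
  induction f using MvPolynomial.induction_on with
  | C a =>
    refine ⟨a.den, a.den_pos, a.num, [], by simp, fun A _ _ Z _ => ?_⟩
    rw [MvPolynomial.aeval_C, List.map_nil, List.sum_nil, add_zero]
    have h1 : ((a.den : ℚ)) * a = a.num := Rat.den_mul_eq_num a
    calc (a.den : A) * algebraMap ℚ A a = algebraMap ℚ A (a.den * a) := by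
          rw [map_mul, map_natCast]
      _ = _ := by rw [h1, map_intCast]
  | add p q hp hq =>
    obtain ⟨d1, h1, c1, L1, hL1, e1⟩ := hp
    obtain ⟨d2, h2, c2, L2, hL2, e2⟩ := hq
    refine ⟨d1 * d2, Nat.mul_pos h1 h2, d2 * c1 + d1 * c2,
      (L1.map fun e => ((d2 : ℤ) * e.1, e.2)) ++ (L2.map fun e => ((d1 : ℤ) * e.1, e.2)), ?_, ?_⟩
    · intro e he
      rw [List.mem_append, List.mem_map, List.mem_map] at he
      rcases he with ⟨a, ha, rfl⟩ | ⟨a, ha, rfl⟩
      · exact hL1 a ha
      · exact hL2 a ha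
    · intro A _ _ Z hZ
      have g1 := e1 A Z hZ
      have g2 := e2 A Z hZ
      have s1 : ∀ (d : ℕ) (L : List (ℤ × List ℕ)),
          ((L.map fun e => ((d : ℤ) * e.1, e.2)).map fun e : ℤ × List ℕ => (e.1 : A) * Z e.2).sum =
            (d : A) * (L.map fun e => (e.1 : A) * Z e.2).sum := by
        intro d L
        rw [← List.sum_map_mul_left, List.map_map]
        congr 1
        refine List.map_congr_left fun e _ => ?_
        simp [mul_assoc]
      rw [map_add, List.map_append, List.sum_append, s1, s1]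
      push_cast
      linear_combination (d2 : A) * g1 + (d1 : A) * g2
  | mul_X p i hp =>
    obtain ⟨d, h, c0, L, hL, e⟩ := hp
    refine ⟨d, h, 0, (c0, g i) :: L.flatMap fun e => (sti e.2 (g i)).map fun m => (e.1, m), ?_, ?_⟩
    · intro x hx
      rw [List.mem_cons, List.mem_flatMap] at hx
      rcases hx with rfl | ⟨a, ha, hx⟩
      · exact hg i
      · rw [List.mem_map] at hx
        obtain ⟨m, hm, rfl⟩ := hx
        exact ad_sti (hL a ha) (hg i) m hm
    · intro A _ _ Z hZ
      rw [map_mul, MvPolynomial.aeval_X, ← mul_assoc, e A Z hZ, List.map_cons, List.sum_cons, Int.cast_zero,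
        zero_add, add_mul]
      congr 1
      rw [sum_flat, ← List.sum_map_mul_right]
      congr 1
      refine List.map_congr_left fun a ha => ?_
      rw [mul_assoc, hZ _ _ (hL a ha) (hg i), ← List.sum_map_mul_left, List.map_map]
      rfl

/-- the large letter -/
def Sl : Lr 1 := (0, 1)

/-- one large letter `s + b` -/
def One (w : List (Lr 1)) : Prop := ∃ (p : List ℕ) (b : ℕ) (q : List ℕ), w = fp p ++ (b, 1) :: fp q

lemma ix_Sl (s : ℕ) : ix (fun _ : Fin 1 => s) [Sl] = [s] := by
  simp [ix, Sl]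

lemma one_cons {w : List (Lr 1)} (h : One w) (a : ℕ) : One ((a, 0) :: w) := by
  obtain ⟨p, b, q, rfl⟩ := h
  exact ⟨a :: p, b, q, rfl⟩

lemma ins_one (u : List ℕ) : ∀ x ∈ psti (fp u) [Sl], One x := by
  induction u with
  | nil =>
    intro x hx
    have h0 : (fp [] : List (Lr 1)) = [] := rfl
    rw [h0, psti, List.mem_singleton] at hx
    exact ⟨[], 0, [], hx⟩
  | cons a u ih =>
    intro x hx
    have h0 : (fp (a :: u) : List (Lr 1)) = (a, 0) :: fp u := rfl
    have e1 : psti ((a, 0) :: fp u : List (Lr 1)) [] = [(a, 0) :: fp u] := by rw [psti]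
    have e2 : psti (fp u : List (Lr 1)) [] = [fp u] := by
      cases u with
      | nil =>
        have h0 : (fp [] : List (Lr 1)) = [] := rfl
        rw [h0, psti]
      | cons b u =>
        have h0 : (fp (b :: u) : List (Lr 1)) = (b, 0) :: fp u := rfl
        rw [h0, psti]
    rw [h0, psti, e1, e2, List.mem_append, List.mem_append, List.mem_map] at hx
    rcases hx with (⟨y, hy, rfl⟩ | hx) | hx
    · exact one_cons (ih y hy) a
    · rw [List.map_singleton, List.mem_singleton] at hx
      exact ⟨[], 0, a :: u, by rw [hx]; rfl⟩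
    · rw [List.map_singleton, List.mem_singleton] at hx
      refine ⟨[], a, u, ?_⟩
      rw [hx]
      have : ((a, 0) + Sl : Lr 1) = (a, 1) := by
        rw [Sl]
        ext <;> simp
      rw [this]
      rfl

lemma ins_ge (u : List ℕ) (hu : u = [] ∨ Ad u) : ∀ x ∈ psti (fp u) [Sl], Ge x := by
  intro x hx
  have hS : ∀ a ∈ ([Sl] : List (Lr 1)), a.2 ≠ 0 ∨ 1 ≤ a.1 := by
    intro a ha
    rw [List.mem_singleton] at ha
    subst ha
    left
    intro h
    exact one_ne_zero (congrFun h 0)
  have hf : ∀ a ∈ (fp u : List (Lr 1)), a.2 ≠ 0 ∨ 1 ≤ a.1 := by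
    intro a ha
    rw [fp, List.mem_map] at ha
    obtain ⟨b, hb, rfl⟩ := ha
    rcases hu with rfl | hu
    · exact absurd hb List.not_mem_nil
    · exact Or.inr (hu.pos b hb)
  refine ⟨?_, psti_ok _ _ hf hS x hx⟩
  cases u with
  | nil =>
    have h0 : (fp [] : List (Lr 1)) = [] := rfl
    rw [h0, psti, List.mem_singleton] at hx
    subst hx
    intro l hl
    simp only [List.head?_cons, Option.mem_some_iff] at hl
    left
    rw [← hl]
    intro h
    exact one_ne_zero (congrFun h 0)
  | cons a u =>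
    have ha : 2 ≤ a := (hu.resolve_left (List.cons_ne_nil _ _)).1
    have h0 : (fp (a :: u) : List (Lr 1)) = (a, 0) :: fp u := rfl
    have e1 : psti ((a, 0) :: fp u : List (Lr 1)) [] = [(a, 0) :: fp u] := by rw [psti]
    rw [h0, psti, e1, List.mem_append, List.mem_append, List.mem_map, List.mem_map, List.mem_map] at hx
    intro l hl
    rcases hx with (⟨y, hy, rfl⟩ | ⟨y, hy, rfl⟩) | ⟨y, hy, rfl⟩
    · simp only [List.head?_cons, Option.mem_some_iff] at hl
      right
      rw [← hl]
      exact ha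
    · simp only [List.head?_cons, Option.mem_some_iff] at hl
      left
      rw [← hl]
      intro h
      exact one_ne_zero (congrFun h 0)
    · simp only [List.head?_cons, Option.mem_some_iff] at hl
      left
      rw [← hl]
      intro h
      have := congrFun h 0
      simp [Sl] at this

/-- **insertion**: the product with `Z(s)` -/
theorem ins_sum {A : Type} [CommRing A] (Z : List ℕ → A) (hZ : St Z) (s : ℕ) (hs : 2 ≤ s) (u : List ℕ)
    (hu : u = [] ∨ Ad u) :
    ((psti (fp u) [Sl]).map fun x => Z (ix (fun _ : Fin 1 => s) x)).sum = ex Z u * Z [s] := by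
  have h1 : ((psti (fp u) [Sl]).map fun x => Z (ix (fun _ : Fin 1 => s) x)) = (sti u [s]).map Z := by
    have h2 := ix_psti (fun _ : Fin 1 => s) (fp u) [Sl]
    rw [ix_fp, ix_Sl] at h2
    rw [h2, List.map_map]
    rfl
  rw [h1]
  rcases hu with rfl | hu
  · rw [ex_nil, one_mul, sti]
    simp
  · rw [ex_ne Z (ad_ne hu), hZ u [s] hu ⟨hs, by simp⟩]

/-- **relations with one large argument and bounded coefficients are enough** -/
theorem back {σ : Type} (g : σ → List ℕ) (hg : ∀ i, Ad (g i)) (A : Type) [CommRing A] [IsDomain A]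
    [Algebra ℚ A] (Z : List ℕ → A) (hZ : St Z) (s0 : ℕ) (hne : ∀ s, s0 ≤ s → Odd s → Z [s] ≠ 0)
    (hc : ∀ (r : ℕ) (w : Fin r → List (Lr 1)), (∀ i, Ge (w i) ∧ One (w i)) → ∀ B s1 : ℕ,
      ∃ s, s1 ≤ s ∧ Odd s ∧ ∀ a : Fin r → ℤ, (∀ i, |a i| ≤ B) →
        ∑ i, (a i : ℝ) * mz (ix (fun _ => s) (w i)) = 0 → ∑ i, (a i : A) * Z (ix (fun _ => s) (w i)) = 0)
    (f : MvPolynomial σ ℚ) (hf : MvPolynomial.aeval (fun i => mz (g i)) f = 0) :
    MvPolynomial.aeval (fun i => Z (g i)) f = 0 := by
  obtain ⟨d, hd, c0, L, hL, hlin⟩ := lin g hg f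
  set L0 : List (ℤ × List ℕ) := (c0, []) :: L with hL0
  have hL0' : ∀ e ∈ L0, e.2 = [] ∨ Ad e.2 := by
    intro e he
    rw [hL0, List.mem_cons] at he
    rcases he with rfl | he
    · exact Or.inl rfl
    · exact Or.inr (hL e he)
  set L1 : List (ℤ × List (Lr 1)) := L0.flatMap fun e => (psti (fp e.2) [Sl]).map fun x => (e.1, x) with hL1
  have hL1' : ∀ e ∈ L1, Ge e.2 ∧ One e.2 := by
    intro e he
    rw [hL1, List.mem_flatMap] at he
    obtain ⟨e', he', hx⟩ := he
    rw [List.mem_map] at hx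
    obtain ⟨x, hx, rfl⟩ := hx
    exact ⟨ins_ge _ (hL0' e' he') x hx, ins_one _ x hx⟩
  have key : ∀ (A : Type) [CommRing A] [Algebra ℚ A] (Z : List ℕ → A), St Z → ∀ s, 2 ≤ s →
      ∑ i : Fin L1.length, ((L1.get i).1 : A) * Z (ix (fun _ => s) (L1.get i).2) =
        (d : A) * MvPolynomial.aeval (fun i => Z (g i)) f * Z [s] := by
    intro A _ _ Z hZ s hs
    rw [← sum_list L1 fun e => (e.1 : A) * Z (ix (fun _ => s) e.2), hL1, sum_flat, hlin A Z hZ]
    have h2 : ∀ e ∈ L0, (((psti (fp e.2) [Sl]).map fun x => (e.1, x)).map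
        fun e : ℤ × List (Lr 1) => (e.1 : A) * Z (ix (fun _ => s) e.2)).sum =
          (e.1 : A) * (ex Z e.2 * Z [s]) := by
      intro e he
      rw [← ins_sum Z hZ s hs e.2 (hL0' e he), ← List.sum_map_mul_left, List.map_map]
      rfl
    rw [List.map_congr_left h2, hL0, List.map_cons, List.sum_cons, ex_nil, add_mul, one_mul,
      ← List.sum_map_mul_right]
    congr 2
    refine List.map_congr_left fun e he => ?_
    rw [ex_ne Z (ad_ne (hL e he)), mul_assoc]
  obtain ⟨s, hs1, hs2, hs3⟩ := hc L1.length (fun i => (L1.get i).2) (fun i => hL1' _ (List.get_mem _ _))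
    (∑ i : Fin L1.length, (L1.get i).1.natAbs) (s0 + 2)
  have h3 := hs3 (fun i => (L1.get i).1) (fun i => by
    have h4 : (L1.get i).1.natAbs ≤ ∑ i : Fin L1.length, (L1.get i).1.natAbs :=
      single_le_sum (f := fun i : Fin L1.length => (L1.get i).1.natAbs) (fun _ _ => Nat.zero_le _) (mem_univ i)
    rw [Int.abs_eq_natAbs]
    exact_mod_cast h4) (by
    rw [key ℝ mz (fun u v hu hv => mz_stuffle u v hu hv) s (by omega), hf, mul_zero, zero_mul])
  rw [key A Z hZ s (by omega)] at h3
  rcases mul_eq_zero.1 h3 with h4 | h4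
  · rcases mul_eq_zero.1 h4 with h5 | h5
    · exfalso
      have h6 : algebraMap ℚ A (d : ℚ) = 0 := by rw [map_natCast, h5]
      have h7 : (d : ℚ) = 0 := (algebraMap ℚ A).injective (by rw [h6, map_zero])
      have h8 : d = 0 := by exact_mod_cast h7
      omega
    · exact h5
  · exact absurd h4 (hne s (by omega) hs2)

end Pool.Agent.N734.MZ
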