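import Pool.Agent.N734.MZ.Core

/-!
# Indices `2a, ..., 2a` (helper734)
-/

set_option autoImplicit false

namespace Pool.Agent.N734.MZ

open Finset Pool.Agent.Y760.ZF
open Pool.Agent.Y760.ZG (mz hr)
open Pool.Agent.X90.DB (Ad ex ex_nil ex_ne ad_ne ix)
open Pool.Agent.X90.DC

lemma sti_nil_right (u : List ℕ) : sti u [] = [u] := by
  cases u with
  | nil => rw [sti]
  | cons a u => rw [sti]

/-- the stuffle product of `x, ..., x` and `y` -/
lemma sti_rep {A : Type} [AddCommMonoid A] (x y n : ℕ) : ∀ F : List ℕ → A,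
    ((sti (List.replicate n x) [y]).map F).sum =
      ∑ i ∈ range (n + 1), F (List.replicate i x ++ y :: List.replicate (n - i) x) +
        ∑ i ∈ range n, F (List.replicate i x ++ (x + y) :: List.replicate (n - 1 - i) x) := by
  induction n with
  | zero =>
    intro F
    rw [List.replicate_zero, sti]
    simp
  | succ n ih =>
    intro F
    rw [List.replicate_succ, sti, sti_nil_right, sti_nil_right]
    have h1 := ih fun u => F (x :: u)
    rw [List.map_append, List.map_append, List.sum_append, List.sum_append, List.map_map]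
    have h2 : (F ∘ fun u : List ℕ => x :: u) = fun u => F (x :: u) := rfl
    have g1 : ∑ i ∈ range (n + 1 + 1), F (List.replicate i x ++ y :: List.replicate (n + 1 - i) x) =
        ∑ i ∈ range (n + 1), F (x :: (List.replicate i x ++ y :: List.replicate (n - i) x)) +
          F (y :: x :: List.replicate n x) := by
      rw [sum_range_succ']
      congr 1
      refine sum_congr rfl fun i _ => ?_
      rw [List.replicate_succ, List.cons_append, show n + 1 - (i + 1) = n - i by omega]
    have g2 : ∑ i ∈ range (n + 1), F (List.replicate i x ++ (x + y) :: List.replicate (n + 1 - 1 - i) x) =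
        ∑ i ∈ range n, F (x :: (List.replicate i x ++ (x + y) :: List.replicate (n - 1 - i) x)) +
          F ((x + y) :: List.replicate n x) := by
      rw [sum_range_succ']
      congr 1
      refine sum_congr rfl fun i _ => ?_
      rw [List.replicate_succ, List.cons_append, show n + 1 - 1 - (i + 1) = n - 1 - i by omega]
    rw [h2, h1, g1, g2]
    simp only [List.map_cons, List.map_nil, List.sum_cons, List.sum_nil, add_zero]
    abel

variable {A : Type} [CommRing A] [Algebra ℚ A]

/-- **Newton's identities** -/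
theorem newton (Z : List ℕ → A) (hZ : St Z) (G : ℕ → Submodule ℚ A) (h1 : (1 : A) ∈ G 0)
    (hmul : ∀ m n a b, a ∈ G m → b ∈ G n → a * b ∈ G (m + n)) (x : ℕ) (hx : 2 ≤ x)
    (hp : ∀ j, 1 ≤ j → Z [j * x] ∈ G (j * x)) (n : ℕ) :
    ex Z (List.replicate n x) ∈ G (n * x) ∧ ∀ j, 1 ≤ j →
      ∑ i ∈ range (n + 1), Z (List.replicate i x ++ (j * x) :: List.replicate (n - i) x) ∈ G ((j + n) * x) := by
  induction n with
  | zero =>
    refine ⟨?_, fun j hj => ?_⟩
    · rw [List.replicate_zero, ex_nil, zero_mul]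
      exact h1
    · simpa using hp j hj
  | succ n ih =>
    have hE : ex Z (List.replicate (n + 1) x) ∈ G ((n + 1) * x) := by
      have h2 := ih.2 1 le_rfl
      have h3 : ∀ i ∈ range (n + 1), Z (List.replicate i x ++ (1 * x) :: List.replicate (n - i) x) =
          Z (List.replicate (n + 1) x) := by
        intro i hi
        rw [mem_range] at hi
        congr 1
        rw [one_mul, ← List.replicate_succ, List.replicate_append_replicate]
        congr 1
        omega
      rw [sum_congr rfl h3, sum_const, card_range, add_comm 1 n] at h2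
      rw [ex_ne Z (by simp)]
      have h4 := Submodule.smul_mem _ ((n + 1 : ℚ)⁻¹) h2
      have h5 : ((n + 1 : ℚ)⁻¹) • (n + 1) • Z (List.replicate (n + 1) x) = Z (List.replicate (n + 1) x) := by
        rw [← Nat.cast_smul_eq_nsmul ℚ, smul_smul]
        have : ((n + 1 : ℚ)⁻¹) * ((n + 1 : ℕ) : ℚ) = 1 := by
          push_cast
          exact inv_mul_cancel₀ (by positivity)
        rw [this, one_smul]
      rw [h5] at h4
      exact h4
    refine ⟨hE, fun j hj => ?_⟩
    have hA : Ad (List.replicate (n + 1) x) := by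
      rw [List.replicate_succ]
      refine ⟨hx, fun t ht => ?_⟩
      rw [List.eq_of_mem_replicate ht]
      omega
    have hB : Ad [j * x] := ⟨by nlinarith, by simp⟩
    have h2 := hZ _ _ hA hB
    rw [sti_rep] at h2
    have h3 := ih.2 (j + 1) (by omega)
    have h4 : ∑ i ∈ range (n + 1), Z (List.replicate i x ++ (x + j * x) :: List.replicate (n + 1 - 1 - i) x) =
        ∑ i ∈ range (n + 1), Z (List.replicate i x ++ ((j + 1) * x) :: List.replicate (n - i) x) := by
      refine sum_congr rfl fun i _ => ?_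
      rw [Nat.add_sub_cancel, show x + j * x = (j + 1) * x by ring]
    rw [h4] at h2
    have h5 := hmul _ _ _ _ hE (hp j hj)
    rw [ex_ne Z (by simp), h2] at h5
    have h6 : (n + 1) * x + j * x = (j + (n + 1)) * x := by ring
    have h7 : (j + 1 + n) * x = (j + (n + 1)) * x := by ring
    rw [h6] at h5
    rw [h7] at h3
    have h8 := Submodule.sub_mem _ h5 h3
    rwa [add_sub_cancel_right] at h8

/-- if the even zeta values vanish, all values at `2a, ..., 2a` vanish -/
theorem even_zero (Z : List ℕ → A) (hZ : St Z) (h0 : ∀ m, 1 ≤ m → Z [2 * m] = 0) (a n : ℕ) (ha : 1 ≤ a)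
    (hn : 1 ≤ n) : Z (List.replicate n (2 * a)) = 0 := by
  have h := (newton Z hZ (fun n => if n = 0 then ⊤ else ⊥) (by simp) (by
    intro m n a b ha hb
    by_cases hm : m = 0
    · by_cases hn : n = 0
      · simp [hm, hn]
      · simp only [hn, if_false, Submodule.mem_bot] at hb
        rw [hb, mul_zero]
        exact Submodule.zero_mem _
    · simp only [hm, if_false, Submodule.mem_bot] at ha
      rw [ha, zero_mul]
      exact Submodule.zero_mem _) (2 * a) (by omega) (by
    intro j hj
    have h1 := h0 (j * a) (Nat.mul_pos hj ha)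
    rw [show j * (2 * a) = 2 * (j * a) by ring, h1]
    exact Submodule.zero_mem _) n).1
  rw [if_neg (by positivity), Submodule.mem_bot, ex_ne Z (by
    intro h
    have := congrArg List.length h
    simp at this
    omega)] at h
  exact h

/-- even zeta values -/
lemma mz_even (m : ℕ) (hm : 1 ≤ m) : mz [2 * m] ∈ Submodule.span ℚ {Real.pi ^ (2 * m)} := by
  have h1 := hasSum_zeta_nat (k := m) (by omega)
  have h2 : mz [2 * m] = ∑' n : ℕ, 1 / (n : ℝ) ^ (2 * m) := by
    rw [mz, h1.summable.tsum_eq_zero_add]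
    have h3 : (1 : ℝ) / ((0 : ℕ) : ℝ) ^ (2 * m) = 0 := by
      rw [Nat.cast_zero, zero_pow (by omega), div_zero]
    rw [h3, zero_add]
    refine tsum_congr fun k => ?_
    rw [hr]
  rw [h2, h1.tsum_eq, Submodule.mem_span_singleton]
  refine ⟨(-1) ^ (m + 1) * 2 ^ (2 * m - 1) * bernoulli (2 * m) / (2 * m).factorial, ?_⟩
  rw [Rat.smul_def]
  push_cast
  ring

/-- the multiple zeta values at `2a, ..., 2a` -/
theorem mz_rep (a n : ℕ) (ha : 1 ≤ a) (hn : 1 ≤ n) :
    ∃ r : ℚ, mz (List.replicate n (2 * a)) = (r : ℝ) * Real.pi ^ (n * (2 * a)) := by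
  have h := (newton mz (fun u v hu hv => mz_stuffle u v hu hv) (fun n => Submodule.span ℚ {Real.pi ^ n})
    (by
      rw [pow_zero]
      exact Submodule.mem_span_singleton_self _) (by
    intro m n a b ha hb
    rw [Submodule.mem_span_singleton] at ha hb ⊢
    obtain ⟨r, rfl⟩ := ha
    obtain ⟨t, rfl⟩ := hb
    refine ⟨r * t, ?_⟩
    simp only [Rat.smul_def]
    push_cast
    ring) (2 * a) (by omega) (by
    intro j hj
    rw [show j * (2 * a) = 2 * (j * a) by ring]
    exact mz_even (j * a) (Nat.mul_pos hj ha)) n).1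
  rw [ex_ne mz (by
    intro h
    have := congrArg List.length h
    simp at this
    omega), Submodule.mem_span_singleton] at h
  obtain ⟨r, hr⟩ := h
  exact ⟨r, by rw [← hr, Rat.smul_def]⟩

/-- **relations between the values at `2a, ..., 2a` hold for all families with vanishing even zeta values** -/
theorem even_transfer {σ : Type} (g : σ → List ℕ)
    (hg : ∀ i, ∃ n a, 1 ≤ n ∧ 1 ≤ a ∧ g i = List.replicate n (2 * a))
    (Z : List ℕ → A) (hZ : St Z) (h0 : ∀ m, 1 ≤ m → Z [2 * m] = 0) (f : MvPolynomial σ ℚ)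
    (hf : MvPolynomial.aeval (fun i => mz (g i)) f = 0) : MvPolynomial.aeval (fun i => Z (g i)) f = 0 := by
  have h1 : ∀ i, ∃ (r : ℚ) (e : ℕ), 1 ≤ e ∧ mz (g i) = (r : ℝ) * Real.pi ^ e := by
    intro i
    obtain ⟨n, a, hn, ha, hi⟩ := hg i
    obtain ⟨r, hr⟩ := mz_rep a n ha hn
    exact ⟨r, n * (2 * a), Nat.mul_pos hn (by omega), by rw [hi, hr]⟩
  choose r e he hre using h1
  have h2 : ∀ i, Z (g i) = 0 := by
    intro i
    obtain ⟨n, a, hn, ha, hi⟩ := hg i
    rw [hi]
    exact even_zero Z hZ h0 a n ha hn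
  set φ : MvPolynomial σ ℚ →ₐ[ℚ] Polynomial ℚ :=
    MvPolynomial.aeval fun i => Polynomial.C (r i) * Polynomial.X ^ (e i) with hφ
  have h3 : Polynomial.aeval Real.pi (φ f) = 0 := by
    rw [← hf, hφ, ← AlgHom.comp_apply]
    congr 1
    refine MvPolynomial.algHom_ext fun i => ?_
    rw [AlgHom.comp_apply, MvPolynomial.aeval_X, MvPolynomial.aeval_X, map_mul, Polynomial.aeval_C, map_pow,
      Polynomial.aeval_X, hre i]
    rfl
  have h4 : φ f = 0 := by
    by_contra hne
    exact H340R2.LW.transcendental_pi ⟨φ f, hne, h3⟩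
  have h5 : (MvPolynomial.aeval (fun _ : σ => (0 : ℚ))) f = 0 := by
    have h6 : (Polynomial.aeval (0 : ℚ)) (φ f) = (MvPolynomial.aeval (fun _ : σ => (0 : ℚ))) f := by
      rw [hφ, ← AlgHom.comp_apply]
      congr 1
      refine MvPolynomial.algHom_ext fun i => ?_
      rw [AlgHom.comp_apply, MvPolynomial.aeval_X, MvPolynomial.aeval_X, map_mul, map_pow, Polynomial.aeval_X,
        zero_pow (by have := he i; omega), mul_zero]
    rw [← h6, h4, map_zero]
  have h7 : (fun i => Z (g i)) = fun i => algebraMap ℚ A ((fun _ : σ => (0 : ℚ)) i) := by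
    funext i
    rw [h2, map_zero]
  rw [h7]
  have h8 := MvPolynomial.aeval_algebraMap_apply (A := ℚ) A (fun _ : σ => (0 : ℚ)) f
  rw [h5, map_zero] at h8
  exact h8

end Pool.Agent.N734.MZ
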