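import Pool.Agent.N734.MZ.Even

/-!
# Families with `2 π i` (helper734)
-/

set_option autoImplicit false

namespace Pool.Agent.N734.MZ

open Finset Pool.Agent.Y760.ZF
open Pool.Agent.Y760.ZG (mz hr)
open Pool.Agent.X90.DB (Ad ex ex_nil ex_ne ad_ne ix)
open Pool.Agent.X90.DC

/-- `2 π i` -/
noncomputable def tpi : ℂ := 2 * Real.pi * Complex.I

/-- Euler: `ζ(2 m) = ec m * (2 π i) ^ (2 m)` -/
noncomputable def ec (m : ℕ) : ℚ := - bernoulli (2 * m) / (2 * (2 * m).factorial)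

lemma mz_euler (m : ℕ) (hm : 1 ≤ m) : ((mz [2 * m] : ℝ) : ℂ) = (ec m : ℂ) * tpi ^ (2 * m) := by
  have h1 := hasSum_zeta_nat (k := m) (by omega)
  have h2 : mz [2 * m] = ∑' n : ℕ, 1 / (n : ℝ) ^ (2 * m) := by
    rw [mz, h1.summable.tsum_eq_zero_add]
    have h3 : (1 : ℝ) / ((0 : ℕ) : ℝ) ^ (2 * m) = 0 := by
      rw [Nat.cast_zero, zero_pow (by omega), div_zero]
    rw [h3, zero_add]
    refine tsum_congr fun k => ?_
    rw [hr]
  rw [h2, h1.tsum_eq, ec, tpi]
  have h4 : (2 * (Real.pi : ℂ) * Complex.I) ^ (2 * m) = (-1) ^ m * 2 ^ (2 * m) * (Real.pi : ℂ) ^ (2 * m) := by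
    rw [mul_pow, mul_pow, pow_mul Complex.I, Complex.I_sq]
    ring
  rw [h4]
  obtain ⟨j, rfl⟩ : ∃ j, m = j + 1 := ⟨m - 1, by omega⟩
  have h5 : 2 * (j + 1) - 1 = 2 * j + 1 := by omega
  have h6 : 2 * (j + 1) = 2 * j + 2 := by ring
  rw [h5]
  push_cast
  have h7 : ((2 * (j + 1)).factorial : ℂ) ≠ 0 := by exact_mod_cast (Nat.factorial_pos _).ne'
  have h8 : (2 : ℂ) ^ (2 * (j + 1)) = 2 * 2 ^ (2 * j + 1) := by rw [h6]; ring
  rw [h8, pow_succ, pow_succ]
  field_simp

lemma tpi_tr : Transcendental ℚ tpi := by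
  intro h
  have hI : IsAlgebraic ℚ Complex.I :=
    ⟨Polynomial.X ^ 2 + 1, by
      intro h0
      have := congrArg (Polynomial.eval (0 : ℚ)) h0
      simp at this, by simp⟩
  have h2 : IsAlgebraic ℚ (2 : ℂ) := by
    have := isAlgebraic_algebraMap (R := ℚ) (A := ℂ) (2 : ℚ)
    simpa using this
  have h3 : IsAlgebraic ℚ (tpi * (2 * Complex.I)⁻¹) := h.mul (h2.mul hI).inv
  have h4 : tpi * (2 * Complex.I)⁻¹ = (Real.pi : ℂ) := by
    rw [tpi]
    field_simp
  rw [h4] at h3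
  exact H340R2.LW.transcendental_pi_complex h3

variable {A : Type} [CommRing A] [Algebra ℚ A]

omit [Algebra ℚ A] in
/-- the product of two families -/
lemma st_prod {B : Type} [CommRing B] (Y : List ℕ → B) (Z : List ℕ → A) (hY : St Y) (hZ : St Z) :
    St (fun u => ((Y u, Z u) : B × A)) := by
  intro u v hu hv
  have h1 : ∀ L : List (List ℕ), (L.map fun u => ((Y u, Z u) : B × A)).sum =
      ((L.map Y).sum, (L.map Z).sum) := by
    intro L
    induction L with
    | nil => rfl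
    | cons a L ih => rw [List.map_cons, List.sum_cons, ih, List.map_cons, List.sum_cons, List.map_cons,
        List.sum_cons, Prod.mk_add_mk]
  rw [h1, Prod.mk_mul_mk, hY u v hu hv, hZ u v hu hv]

/-- the values at `2a, ..., 2a` in terms of `2 π i` and `y`, with the same rational number -/
theorem rep_mu (y : A) (Z : List ℕ → A) (hZ : St Z)
    (h0 : ∀ m, 1 ≤ m → Z [2 * m] = algebraMap ℚ A (ec m) * y ^ (2 * m)) (a n : ℕ) (ha : 1 ≤ a) (hn : 1 ≤ n) :
    ∃ (r : ℚ) (e : ℕ), ((mz (List.replicate n (2 * a)) : ℝ) : ℂ) = (r : ℂ) * tpi ^ e ∧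
      Z (List.replicate n (2 * a)) = algebraMap ℚ A r * y ^ e := by
  have h := (newton (fun u => (((mz u : ℝ) : ℂ), Z u) : List ℕ → ℂ × A)
    (st_prod _ Z mz_stuffle_C hZ)
    (fun n => Submodule.span ℚ {((tpi ^ n, y ^ n) : ℂ × A)})
    (by
      rw [pow_zero, pow_zero]
      exact Submodule.mem_span_singleton_self _) (by
    intro m n a b ha hb
    rw [Submodule.mem_span_singleton] at ha hb ⊢
    obtain ⟨r, rfl⟩ := ha
    obtain ⟨t, rfl⟩ := hb
    refine ⟨r * t, ?_⟩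
    rw [smul_mul_smul_comm, Prod.mk_mul_mk, ← pow_add, ← pow_add]) (2 * a) (by omega) (by
    intro j hj
    rw [show j * (2 * a) = 2 * (j * a) by ring]
    have h1 := h0 (j * a) (Nat.mul_pos hj ha)
    have h2 := mz_euler (j * a) (Nat.mul_pos hj ha)
    rw [Submodule.mem_span_singleton]
    refine ⟨ec (j * a), ?_⟩
    rw [h1, h2, Prod.smul_mk, Algebra.smul_def, Algebra.smul_def]
    rfl) n).1
  rw [ex_ne _ (by
    intro h
    have := congrArg List.length h
    simp at this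
    omega), Submodule.mem_span_singleton] at h
  obtain ⟨r, hr⟩ := h
  rw [Prod.smul_mk, Prod.mk.injEq, Algebra.smul_def, Algebra.smul_def] at hr
  exact ⟨r, n * (2 * a), hr.1.symm, hr.2.symm⟩

/-- **relations between `2 π i` and the values at `2a, ..., 2a` hold for all families with Euler's formula** -/
theorem even_transfer_mu {σ : Type} (g : σ → List ℕ)
    (hg : ∀ i, ∃ n a, 1 ≤ n ∧ 1 ≤ a ∧ g i = List.replicate n (2 * a))
    (y : A) (Z : List ℕ → A) (hZ : St Z)
    (h0 : ∀ m, 1 ≤ m → Z [2 * m] = algebraMap ℚ A (ec m) * y ^ (2 * m)) (f : MvPolynomial (Fin 1 ⊕ σ) ℚ)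
    (hf : MvPolynomial.aeval (Sum.elim (fun _ => tpi) fun i => ((mz (g i) : ℝ) : ℂ)) f = 0) :
    MvPolynomial.aeval (Sum.elim (fun _ => y) fun i => Z (g i)) f = 0 := by
  have h1 : ∀ i, ∃ (r : ℚ) (e : ℕ), ((mz (g i) : ℝ) : ℂ) = (r : ℂ) * tpi ^ e ∧
      Z (g i) = algebraMap ℚ A r * y ^ e := by
    intro i
    obtain ⟨n, a, hn, ha, hi⟩ := hg i
    rw [hi]
    exact rep_mu y Z hZ h0 a n ha hn
  choose r e h1 h2 using h1
  set φ : MvPolynomial (Fin 1 ⊕ σ) ℚ →ₐ[ℚ] Polynomial ℚ :=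
    MvPolynomial.aeval (Sum.elim (fun _ => Polynomial.X) fun i => Polynomial.C (r i) * Polynomial.X ^ (e i)) with hφ
  have h3 : Polynomial.aeval tpi (φ f) = 0 := by
    rw [← hf, hφ, ← AlgHom.comp_apply]
    congr 1
    refine MvPolynomial.algHom_ext fun i => ?_
    rw [AlgHom.comp_apply, MvPolynomial.aeval_X, MvPolynomial.aeval_X]
    rcases i with i | i
    · rw [Sum.elim_inl, Sum.elim_inl, Polynomial.aeval_X]
    · rw [Sum.elim_inr, Sum.elim_inr, map_mul, Polynomial.aeval_C, map_pow, Polynomial.aeval_X, h1 i]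
      rfl
  have h4 : φ f = 0 := by
    by_contra hne
    exact tpi_tr ⟨φ f, hne, h3⟩
  have h5 : (Polynomial.aeval y) (φ f) = MvPolynomial.aeval (Sum.elim (fun _ => y) fun i => Z (g i)) f := by
    rw [hφ, ← AlgHom.comp_apply]
    congr 1
    refine MvPolynomial.algHom_ext fun i => ?_
    rw [AlgHom.comp_apply, MvPolynomial.aeval_X, MvPolynomial.aeval_X]
    rcases i with i | i
    · rw [Sum.elim_inl, Sum.elim_inl, Polynomial.aeval_X]
    · rw [Sum.elim_inr, Sum.elim_inr, map_mul, Polynomial.aeval_C, map_pow, Polynomial.aeval_X, h2 i]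
  rw [← h5, h4, map_zero]

/-- **`2 π i` is eliminated** from the relations: `(2 π i)² = -24 ζ(2)` -/
theorem split_mu {σ : Type} (g : σ → List ℕ) (i₂ : σ) (h2 : g i₂ = [2]) (f : MvPolynomial (Fin 1 ⊕ σ) ℚ) :
    ∃ f₀ f₁ : MvPolynomial σ ℚ, ∀ (B : Type) [CommRing B] [Algebra ℚ B] (y : B) (Z : List ℕ → B),
      y ^ 2 = -24 * Z [2] →
      MvPolynomial.aeval (Sum.elim (fun _ => y) fun i => Z (g i)) f =
        MvPolynomial.aeval (fun i => Z (g i)) f₀ + y * MvPolynomial.aeval (fun i => Z (g i)) f₁ := by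
  induction f using MvPolynomial.induction_on with
  | C a =>
    refine ⟨MvPolynomial.C a, 0, fun B _ _ y Z _ => ?_⟩
    rw [MvPolynomial.aeval_C, MvPolynomial.aeval_C, map_zero, mul_zero, add_zero]
  | add p q hp hq =>
    obtain ⟨p₀, p₁, hp⟩ := hp
    obtain ⟨q₀, q₁, hq⟩ := hq
    refine ⟨p₀ + q₀, p₁ + q₁, fun B _ _ y Z hy => ?_⟩
    rw [map_add, hp B y Z hy, hq B y Z hy, map_add, map_add]
    ring
  | mul_X p i hp =>
    obtain ⟨p₀, p₁, hp⟩ := hp
    rcases i with i | i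
    · refine ⟨MvPolynomial.C (-24) * MvPolynomial.X i₂ * p₁, p₀, fun B _ _ y Z hy => ?_⟩
      rw [map_mul, hp B y Z hy, MvPolynomial.aeval_X, Sum.elim_inl, map_mul, map_mul, MvPolynomial.aeval_C,
        MvPolynomial.aeval_X, h2]
      have h3 : algebraMap ℚ B (-24) = -24 := by
        rw [map_neg]
        congr 1
        exact map_ofNat (algebraMap ℚ B) 24
      rw [h3]
      linear_combination MvPolynomial.aeval (fun i => Z (g i)) p₁ * hy
    · refine ⟨p₀ * MvPolynomial.X i, p₁ * MvPolynomial.X i, fun B _ _ y Z hy => ?_⟩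
      rw [map_mul, hp B y Z hy, MvPolynomial.aeval_X, Sum.elim_inr, map_mul, map_mul, MvPolynomial.aeval_X]
      ring

/-- the relations with `2 π i` follow from the relations between the multiple zeta values -/
theorem mu_of {σ : Type} (g : σ → List ℕ) (i₂ : σ) (h2 : g i₂ = [2]) (y : A) (Z : List ℕ → A)
    (hy : y ^ 2 = -24 * Z [2])
    (h : ∀ f : MvPolynomial σ ℚ, MvPolynomial.aeval (fun i => mz (g i)) f = 0 →
      MvPolynomial.aeval (fun i => Z (g i)) f = 0) (f : MvPolynomial (Fin 1 ⊕ σ) ℚ)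
    (hf : MvPolynomial.aeval (Sum.elim (fun _ => tpi) fun i => ((mz (g i) : ℝ) : ℂ)) f = 0) :
    MvPolynomial.aeval (Sum.elim (fun _ => y) fun i => Z (g i)) f = 0 := by
  obtain ⟨f₀, f₁, hs⟩ := split_mu g i₂ h2 f
  have hr : tpi ^ 2 = -24 * ((mz [2] : ℝ) : ℂ) := by
    have h3 := mz_euler 1 le_rfl
    rw [show 2 * 1 = 2 from rfl] at h3
    rw [h3, ec]
    have h4 : bernoulli (2 * 1) = 1 / 6 := by
      rw [show 2 * 1 = 2 from rfl, bernoulli_two]
      norm_num
    rw [h4]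
    norm_num [Nat.factorial]
    ring
  have h3 := hs ℂ tpi (fun u => ((mz u : ℝ) : ℂ)) hr
  rw [hf] at h3
  have hc : ∀ q : MvPolynomial σ ℚ, MvPolynomial.aeval (fun i => ((mz (g i) : ℝ) : ℂ)) q =
      ((MvPolynomial.aeval (fun i => mz (g i)) q : ℝ) : ℂ) := by
    intro q
    exact MvPolynomial.aeval_algebraMap_apply (A := ℝ) ℂ (fun i => mz (g i)) q
  rw [hc, hc] at h3
  have h4 := congrArg Complex.re h3
  have h5 := congrArg Complex.im h3
  have h6 : tpi.re = 0 := by simp [tpi]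
  have h7 : tpi.im = 2 * Real.pi := by simp [tpi]
  rw [Complex.zero_re, Complex.add_re, Complex.mul_re, Complex.ofReal_re, Complex.ofReal_im, h6] at h4
  rw [Complex.zero_im, Complex.add_im, Complex.mul_im, Complex.ofReal_im, Complex.ofReal_im, Complex.ofReal_re,
    h7] at h5
  have h8 : MvPolynomial.aeval (fun i => mz (g i)) f₀ = 0 := by linarith
  have h9 : MvPolynomial.aeval (fun i => mz (g i)) f₁ = 0 := by
    have hpi := Real.pi_pos
    have h10 : 2 * Real.pi * MvPolynomial.aeval (fun i => mz (g i)) f₁ = 0 := by linarith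
    rcases mul_eq_zero.1 h10 with h11 | h11
    · linarith
    · exact h11
  rw [hs A y Z hy, h f₀ h8, h f₁ h9, mul_zero, add_zero]

end Pool.Agent.N734.MZ
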